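import Mathlib
import Pool.Agent.W5h62.Torus.Main

/-! There is a toroidal polyhedron in three-dimensional Euclidean space, with convex faces, whose
faces cannot be properly coloured with four colours. The example has 23 vertices, 44 edges and
21 faces. -/

namespace Pool.Agent.Results.MP_c9efbf_co.FourColoursFail

/-- Three-dimensional Euclidean space. -/
abbrev Space : Type := EuclideanSpace ℝ (Fin 3)

/-- `F` is a convex polygon: the convex hull of finitely many points, of dimension two (in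
particular `F` lies in exactly one plane). -/
def IsConvexPolygon (F : Set Space) : Prop :=
  (∃ s : Set Space, s.Finite ∧ F = convexHull ℝ s) ∧ Module.finrank ℝ (vectorSpan ℝ F) = 2

/-- `v` is a vertex (extreme point) of `F`. -/
def IsVertexOf (v : Space) (F : Set Space) : Prop := v ∈ F.extremePoints ℝ

/-- `e` is an edge of `F`: a segment with two different end points which is an extreme subset
of `F`. -/
def IsEdgeOf (e F : Set Space) : Prop :=
  (∃ a b : Space, a ≠ b ∧ e = segment ℝ a b) ∧ IsExtreme ℝ F e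

/-- `F` and `G` are two different faces with a common edge: their intersection is an edge of
both. -/
def ShareEdge (F G : Set Space) : Prop :=
  F ≠ G ∧ IsEdgeOf (F ∩ G) F ∧ IsEdgeOf (F ∩ G) G

/-- `𝓕` is the set of faces of a toroidal polyhedron: finitely many convex polygons, any two of
which are disjoint or meet in a common vertex or in a common edge of both, such that faces with
a common edge are not coplanar and the union of all the faces is homeomorphic to the torus. -/
structure IsToroidalPolyhedron (𝓕 : Set (Set Space)) : Prop where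
  finite : 𝓕.Finite
  convexPolygon : ∀ F ∈ 𝓕, IsConvexPolygon F
  meet : ∀ F ∈ 𝓕, ∀ G ∈ 𝓕, F ≠ G →
    F ∩ G = ∅ ∨ (∃ v, F ∩ G = {v} ∧ IsVertexOf v F ∧ IsVertexOf v G) ∨
      (IsEdgeOf (F ∩ G) F ∧ IsEdgeOf (F ∩ G) G)
  notCoplanar : ∀ F ∈ 𝓕, ∀ G ∈ 𝓕, ShareEdge F G → affineSpan ℝ F ≠ affineSpan ℝ G
  torus : Nonempty ((⋃₀ 𝓕 : Set Space) ≃ₜ Circle × Circle)

/-- The faces in `𝓕` have a proper colouring with `k` colours: faces with a common edge get
different colours. -/
def HasFaceColouring (𝓕 : Set (Set Space)) (k : ℕ) : Prop :=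
  ∃ c : 𝓕 → Fin k, ∀ F G : 𝓕, ShareEdge F.1 G.1 → c F ≠ c G

open Pool.Agent.W5h62.Torus Pool.Agent.W5h62.Torus.Data

theorem cm_nil (f g : Fin 21) (h : f ≠ g) (hc : cm f g = []) : Fc f ∩ Fc g = ∅ := by
  rw [(Fc_inter f g h).1, hc]
  simp

theorem cm_one (f g : Fin 21) (h : f ≠ g) (a : Fin 23) (hc : cm f g = [a]) :
    Fc f ∩ Fc g = {P a} := by
  rw [(Fc_inter f g h).1, hc]
  have : P '' {v | v ∈ [a]} = {P a} := by
    ext x; simp
  rw [this, convexHull_singleton]

theorem cm_two (f g : Fin 21) (h : f ≠ g) (a b : Fin 23) (hc : cm f g = [a, b]) :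
    Fc f ∩ Fc g = segment ℝ (P a) (P b) := by
  rw [(Fc_inter f g h).1, hc]
  have : P '' {v | v ∈ [a, b]} = {P a, P b} := by
    ext x
    simp only [List.mem_cons, List.not_mem_nil, or_false, Set.mem_image, Set.mem_ofPred_eq,
      Set.mem_insert_iff, Set.mem_singleton_iff]
    constructor
    · rintro ⟨v, rfl | rfl, rfl⟩
      · exact Or.inl rfl
      · exact Or.inr rfl
    · rintro (rfl | rfl)
      · exact ⟨a, Or.inl rfl, rfl⟩
      · exact ⟨b, Or.inr rfl, rfl⟩
  rw [this, convexHull_pair]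

theorem cm_edge (f g : Fin 21) (h : f ≠ g) (hc : (cm f g).length = 2) :
    IsEdgeOf (Fc f ∩ Fc g) (Fc f) ∧ IsEdgeOf (Fc f ∩ Fc g) (Fc g) := by
  obtain ⟨a, b, hab⟩ := List.length_eq_two.1 hc
  have hne : a ≠ b := by
    have := (checkCm f g h).2
    rw [hab] at this
    simpa using this
  have hseg : ∃ x y : Space, x ≠ y ∧ Fc f ∩ Fc g = segment ℝ x y :=
    ⟨P a, P b, fun he => hne (P_inj he), cm_two f g h a b hab⟩
  exact ⟨⟨hseg, (Fc_inter f g h).2.1⟩, ⟨hseg, (Fc_inter f g h).2.2⟩⟩

theorem cm_share (f g : Fin 21) (h : f ≠ g) (hc : (cm f g).length = 2) :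
    ShareEdge (Fc f) (Fc g) :=
  ⟨Fc_ne f g h, cm_edge f g h hc⟩

/-- The two top faces of a graph made of three mutually adjacent faces all adjacent to both of
them get the same colour. -/
theorem diamond : ∀ a x y z b : Fin 4, a ≠ x → a ≠ y → a ≠ z → b ≠ x → b ≠ y → b ≠ z →
    x ≠ y → y ≠ z → x ≠ z → a = b := by
  decide

/-- **Not every toroidal polyhedron has a proper face colouring with four colours.** -/
theorem result : ∃ 𝓕 : Set (Set Space), IsToroidalPolyhedron 𝓕 ∧ ¬ HasFaceColouring 𝓕 4 := by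
  refine ⟨Set.range Fc, ⟨Set.finite_range _, ?_, ?_, ?_, ?_⟩, ?_⟩
  · rintro _ ⟨f, rfl⟩
    exact ⟨⟨P '' {v | v ∈ fv f}, (Set.toFinite _).image _, rfl⟩, Fc_finrank f⟩
  · rintro _ ⟨f, rfl⟩ _ ⟨g, rfl⟩ hne
    have h : f ≠ g := fun h => hne (by rw [h])
    have hl := (checkCm f g h).1
    rcases hc : cm f g with _ | ⟨a, _ | ⟨b, _ | ⟨c, l⟩⟩⟩
    · exact Or.inl (cm_nil f g h hc)
    · right; left
      have e := cm_one f g h a hc
      refine ⟨P a, e, ?_, ?_⟩
      · have := (Fc_inter f g h).2.1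
        rw [e, isExtreme_singleton] at this
        exact this
      · have := (Fc_inter f g h).2.2
        rw [e, isExtreme_singleton] at this
        exact this
    · right; right
      exact cm_edge f g h (by rw [hc]; rfl)
    · exfalso
      rw [hc] at hl
      simp at hl
  · rintro _ ⟨f, rfl⟩ _ ⟨g, rfl⟩ ⟨hne, _⟩
    exact Fc_span_ne f g fun h => hne (by rw [h])
  · rw [Set.sUnion_range]
    exact torus
  · rintro ⟨c, hc⟩
    have key : ∀ q ∈ [((0 : Fin 21), (1 : Fin 21)), (0, 2), (0, 3), (4, 1), (4, 2), (4, 3),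
        (1, 2), (2, 3), (1, 3), (4, 5), (4, 6), (4, 7), (8, 5), (8, 6), (8, 7), (5, 6), (6, 7),
        (5, 7), (0, 8)], q.1 ≠ q.2 → c ⟨Fc q.1, q.1, rfl⟩ ≠ c ⟨Fc q.2, q.2, rfl⟩ := by
      intro q hq hne
      exact hc _ _ (cm_share q.1 q.2 hne (checkAdj q hq))
    have e1 : c ⟨Fc 0, 0, rfl⟩ = c ⟨Fc 4, 4, rfl⟩ :=
      diamond _ (c ⟨Fc 1, 1, rfl⟩) (c ⟨Fc 2, 2, rfl⟩) (c ⟨Fc 3, 3, rfl⟩) _
        (key (0, 1) (by simp) (by decide)) (key (0, 2) (by simp) (by decide))
        (key (0, 3) (by simp) (by decide)) (key (4, 1) (by simp) (by decide))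
        (key (4, 2) (by simp) (by decide)) (key (4, 3) (by simp) (by decide))
        (key (1, 2) (by simp) (by decide)) (key (2, 3) (by simp) (by decide))
        (key (1, 3) (by simp) (by decide))
    have e2 : c ⟨Fc 4, 4, rfl⟩ = c ⟨Fc 8, 8, rfl⟩ :=
      diamond _ (c ⟨Fc 5, 5, rfl⟩) (c ⟨Fc 6, 6, rfl⟩) (c ⟨Fc 7, 7, rfl⟩) _
        (key (4, 5) (by simp) (by decide)) (key (4, 6) (by simp) (by decide))
        (key (4, 7) (by simp) (by decide)) (key (8, 5) (by simp) (by decide))
        (key (8, 6) (by simp) (by decide)) (key (8, 7) (by simp) (by decide))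
        (key (5, 6) (by simp) (by decide)) (key (6, 7) (by simp) (by decide))
        (key (5, 7) (by simp) (by decide))
    exact key (0, 8) (by simp) (by decide) (e1.trans e2)

end Pool.Agent.Results.MP_c9efbf_co.FourColoursFail
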